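import Pool.Agent.Lib_helper52.YG.Defs
import Pool.Agent.Lib_helper90.YG.T1
import Pool.Agent.Lib_helper44.YG.T2
import Pool.Agent.Lib_helper87.YG.T3

set_option autoImplicit false

namespace Pool.Agent.YG

open MeasureTheory ENNReal Set Filter Topology Pool.Agent.EPS

variable {d : ℕ}

/-- exponentials in `ℝ≥0∞` -/
noncomputable def t4_e (t : ℝ) : ℝ≥0∞ := ENNReal.ofReal (Real.exp t)

theorem t4_mul (s t : ℝ) : t4_e s * t4_e t = t4_e (s + t) := by
  unfold t4_e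
  rw [Real.exp_add, ENNReal.ofReal_mul (Real.exp_pos s).le]

theorem t4_pow (t c : ℝ) : (t4_e t) ^ c = t4_e (c * t) := by
  unfold t4_e
  rw [ENNReal.ofReal_rpow_of_pos (Real.exp_pos t), ← Real.exp_mul, mul_comm]

theorem t4_inv (t : ℝ) : (t4_e t)⁻¹ = t4_e (-t) := by
  unfold t4_e
  rw [Real.exp_neg, ENNReal.ofReal_inv_of_pos (Real.exp_pos t)]

theorem t4_log (u : ℝ≥0∞) (h0 : 0 < u) (h1 : u < ⊤) : u = t4_e (Real.log u.toReal) := by
  unfold t4_e
  rw [Real.exp_log (ENNReal.toReal_pos h0.ne' h1.ne), ENNReal.ofReal_toReal h1.ne]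

/-- the algebra at one point -/
theorem t4_point (c1 c2 c3 V F G H A B C : ℝ) :
    (t4_e V)⁻¹ * ((t4_e F * t4_e A) ^ c1 * (t4_e G * t4_e B) ^ c2 * (t4_e H * t4_e C) ^ c3) *
      (t4_e F * t4_e G * t4_e H)⁻¹ =
    t4_e (-V - (1 - c1) * F - (1 - c2) * G - (1 - c3) * H + c1 * A + c2 * B + c3 * C) := by
  simp only [t4_mul, t4_pow, t4_inv]
  congr 1
  ring

/-- the integrand of `bound3` divided by the density -/
noncomputable def t4_G (f g h a b c v : EuclideanSpace ℝ (Fin d) → ℝ≥0∞) (c1 c2 c3 : ℝ)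
    (p : EuclideanSpace ℝ (Fin d) × EuclideanSpace ℝ (Fin d) × EuclideanSpace ℝ (Fin d)) :
    ℝ≥0∞ :=
  (v (p.1 + p.2.1 + p.2.2))⁻¹ * ((f p.1 * a (p.2.1 + p.2.2)) ^ c1 *
    (g p.2.1 * b (p.1 + p.2.2)) ^ c2 * (h p.2.2 * c (p.1 + p.2.1)) ^ c3) *
    (f p.1 * g p.2.1 * h p.2.2)⁻¹

theorem t4_meas {f g h a b c v : EuclideanSpace ℝ (Fin d) → ℝ≥0∞} (hf : Measurable f)
    (hg : Measurable g) (hh : Measurable h) (ha : Measurable a) (hb : Measurable b)
    (hc : Measurable c) (hv : Measurable v) (c1 c2 c3 : ℝ) :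
    Measurable (t4_G f g h a b c v c1 c2 c3) := by
  unfold t4_G
  fun_prop

theorem t4_wd (α : Measure (EuclideanSpace ℝ (Fin d))) [IsProbabilityMeasure α]
    (hα : α ≪ volume) (H : EuclideanSpace ℝ (Fin d) → ℝ≥0∞) (hH : Measurable H) :
    ∫⁻ x, H x ∂α = ∫⁻ x, dn α x * H x := by
  obtain ⟨h1, _, h3⟩ := dn_basic α hα
  conv_lhs => rw [← h3]
  rw [lintegral_withDensity_eq_lintegral_mul _ h1 hH]
  rfl

theorem t4_pos (α : Measure (EuclideanSpace ℝ (Fin d))) [IsProbabilityMeasure α]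
    (hα : α ≪ volume) : ∀ᵐ x ∂α, 0 < dn α x ∧ dn α x < ⊤ := by
  have h1 := Measure.rnDeriv_pos hα
  have h2 := hα.ae_le (Measure.rnDeriv_lt_top α volume)
  filter_upwards [h1, h2] with x hx1 hx2
  exact ⟨hx1, hx2⟩

theorem t4_cancel (f g h T : ℝ≥0∞) : f * (g * (h * (T * (f * g * h)⁻¹))) ≤ T := by
  have h1 : f * (g * (h * (T * (f * g * h)⁻¹))) = T * ((f * g * h) * (f * g * h)⁻¹) := by ring
  rw [h1]
  calc T * ((f * g * h) * (f * g * h)⁻¹) ≤ T * 1 := by
        gcongr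
        exact ENNReal.mul_inv_le_one _
    _ = T := mul_one T

/-- the exponential moment -/
theorem exp_bound {c1 c2 c3 κ : ℝ} (w : Wt c1 c2 c3)
    (hY : YG (EuclideanSpace ℝ (Fin d)) c1 c2 c3 κ)
    (α β γ : Measure (EuclideanSpace ℝ (Fin d))) [IsProbabilityMeasure α]
    [IsProbabilityMeasure β] [IsProbabilityMeasure γ] (hα : α ≪ volume) (hβ : β ≪ volume)
    (hγ : γ ≪ volume) :
    ∫⁻ p, ENNReal.ofReal (Real.exp (ell α β γ c1 c2 c3 p)) ∂(α.prod (β.prod γ)) ≤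
      ENNReal.ofReal κ := by
  have hac : ∀ μ ν : Measure (EuclideanSpace ℝ (Fin d)), ∀ [IsProbabilityMeasure μ],
      ∀ [IsProbabilityMeasure ν], ν ≪ volume → μ.conv ν ≪ volume := by
    intro μ ν _ _ h
    exact Measure.conv_absolutelyContinuous h
  have hβγ := hac β γ hγ
  have hαγ := hac α γ hγ
  have hαβ := hac α β hβ
  have hv := hac (α.conv β) γ hγ
  have m1 := (dn_basic α hα).1
  have m2 := (dn_basic β hβ).1
  have m3 := (dn_basic γ hγ).1
  have m4 := (dn_basic (β.conv γ) hβγ).1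
  have m5 := (dn_basic (α.conv γ) hαγ).1
  have m6 := (dn_basic (α.conv β) hαβ).1
  have m7 := (dn_basic ((α.conv β).conv γ) hv).1
  have v0 := (dn_basic ((α.conv β).conv γ) hv).2.1
  have v1 : ∀ᵐ s, ∫⁻ x, dn α x * dn (β.conv γ) (s - x) = dn ((α.conv β).conv γ) s := by
    have h := dn_conv α (β.conv γ) hα hβγ
    rwa [← Measure.conv_assoc] at h
  have v2 : ∀ᵐ s, ∫⁻ x, dn β x * dn (α.conv γ) (s - x) = dn ((α.conv β).conv γ) s := by
    have h := dn_conv β (α.conv γ) hβ hαγ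
    rwa [← Measure.conv_assoc, Measure.conv_comm β α] at h
  have v3 : ∀ᵐ s, ∫⁻ x, dn γ x * dn (α.conv β) (s - x) = dn ((α.conv β).conv γ) s := by
    have h := dn_conv γ (α.conv β) hγ hαβ
    rwa [Measure.conv_comm γ (α.conv β)] at h
  obtain ⟨l1, l2, l3, l4, l5, l6, l7⟩ := laws α β γ
  have q1 := l1.quasiMeasurePreserving.ae (t4_pos α hα)
  have q2 := l2.quasiMeasurePreserving.ae (t4_pos β hβ)
  have q3 := l3.quasiMeasurePreserving.ae (t4_pos γ hγ)
  have q4 := l4.quasiMeasurePreserving.ae (t4_pos (β.conv γ) hβγ)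
  have q5 := l5.quasiMeasurePreserving.ae (t4_pos (α.conv γ) hαγ)
  have q6 := l6.quasiMeasurePreserving.ae (t4_pos (α.conv β) hαβ)
  have q7 := l7.quasiMeasurePreserving.ae (t4_pos ((α.conv β).conv γ) hv)
  have heq : ∀ᵐ p ∂(α.prod (β.prod γ)),
      ENNReal.ofReal (Real.exp (ell α β γ c1 c2 c3 p)) =
        t4_G (dn α) (dn β) (dn γ) (dn (β.conv γ)) (dn (α.conv γ)) (dn (α.conv β))
          (dn ((α.conv β).conv γ)) c1 c2 c3 p := by
    filter_upwards [q1, q2, q3, q4, q5, q6, q7] with p r1 r2 r3 r4 r5 r6 r7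
    unfold t4_G
    rw [t4_log _ r1.1 r1.2, t4_log _ r2.1 r2.2, t4_log _ r3.1 r3.2, t4_log _ r4.1 r4.2,
      t4_log _ r5.1 r5.2, t4_log _ r6.1 r6.2, t4_log _ r7.1 r7.2, t4_point]
    rfl
  rw [lintegral_congr_ae heq]
  have hGm := t4_meas m1 m2 m3 m4 m5 m6 m7 c1 c2 c3
  set G := t4_G (dn α) (dn β) (dn γ) (dn (β.conv γ)) (dn (α.conv γ)) (dn (α.conv β))
          (dn ((α.conv β).conv γ)) c1 c2 c3 with hG
  rw [lintegral_prod _ hGm.aemeasurable]
  have e1 : ∀ x, ∫⁻ q, G (x, q) ∂(β.prod γ) = ∫⁻ y, dn β y * ∫⁻ z, dn γ z * G (x, y, z) := by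
    intro x
    have h1 : Measurable (fun q : EuclideanSpace ℝ (Fin d) × EuclideanSpace ℝ (Fin d) =>
        G (x, q)) := hGm.comp (measurable_const.prodMk measurable_id)
    rw [lintegral_prod _ h1.aemeasurable]
    have h2 : ∀ y, ∫⁻ z, G (x, y, z) ∂γ = ∫⁻ z, dn γ z * G (x, y, z) := by
      intro y
      exact t4_wd γ hγ (fun z => G (x, y, z)) (h1.comp (measurable_const.prodMk measurable_id))
    simp_rw [h2]
    apply t4_wd β hβ
    have h3 : Measurable (fun q : EuclideanSpace ℝ (Fin d) × EuclideanSpace ℝ (Fin d) =>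
        dn γ q.2 * G (x, q)) := (m3.comp measurable_snd).mul h1
    exact h3.lintegral_prod_right'
  simp_rw [e1]
  have h4 : Measurable (fun x => ∫⁻ y, dn β y * ∫⁻ z, dn γ z * G (x, y, z)) := by
    have h5 : Measurable (fun q : (EuclideanSpace ℝ (Fin d) × EuclideanSpace ℝ (Fin d)) ×
        EuclideanSpace ℝ (Fin d) => dn γ q.2 * G (q.1.1, q.1.2, q.2)) := by
      apply (m3.comp measurable_snd).mul
      apply hGm.comp
      fun_prop
    have h6 : Measurable (fun q : EuclideanSpace ℝ (Fin d) × EuclideanSpace ℝ (Fin d) =>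
        ∫⁻ z, dn γ z * G (q.1, q.2, z)) := h5.lintegral_prod_right' (ν := volume)
    have h7 : Measurable (fun q : EuclideanSpace ℝ (Fin d) × EuclideanSpace ℝ (Fin d) =>
        dn β q.2 * ∫⁻ z, dn γ z * G (q.1, q.2, z)) := (m2.comp measurable_snd).mul h6
    exact h7.lintegral_prod_right' (ν := volume)
  rw [t4_wd α hα _ h4]
  refine le_trans ?_ (bound3 w hY (dn α) (dn β) (dn γ) (dn (β.conv γ)) (dn (α.conv γ))
    (dn (α.conv β)) (dn ((α.conv β).conv γ)) m1 m2 m3 m4 m5 m6 m7 v1 v2 v3 v0)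
  apply lintegral_mono
  intro x
  have h8 : dn α x * ∫⁻ y, dn β y * ∫⁻ z, dn γ z * G (x, y, z) =
      ∫⁻ y, dn α x * (dn β y * ∫⁻ z, dn γ z * G (x, y, z)) := by
    rw [lintegral_const_mul]
    have h5 : Measurable (fun q : EuclideanSpace ℝ (Fin d) × EuclideanSpace ℝ (Fin d) =>
        dn γ q.2 * G (x, q)) :=
      (m3.comp measurable_snd).mul (hGm.comp (measurable_const.prodMk measurable_id))
    exact m2.mul h5.lintegral_prod_right'
  show dn α x * ∫⁻ y, dn β y * ∫⁻ z, dn γ z * G (x, y, z) ≤ _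
  rw [h8]
  apply lintegral_mono
  intro y
  have hGz : Measurable (fun z => G (x, y, z)) := by
    apply hGm.comp
    fun_prop
  have hGz' : Measurable (fun z => dn γ z * G (x, y, z)) := m3.mul hGz
  have h9 : dn α x * (dn β y * ∫⁻ z, dn γ z * G (x, y, z)) =
      ∫⁻ z, dn α x * (dn β y * (dn γ z * G (x, y, z))) := by
    rw [lintegral_const_mul _ (hGz'.const_mul _), lintegral_const_mul _ hGz']
  show dn α x * (dn β y * ∫⁻ z, dn γ z * G (x, y, z)) ≤ _
  rw [h9]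
  apply lintegral_mono
  intro z
  show dn α x * (dn β y * (dn γ z * G (x, y, z))) ≤ _
  rw [hG]
  unfold t4_G
  exact t4_cancel _ _ _ _

end Pool.Agent.YG
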